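import Pool.Agent.MP_bd94e8_al.H89.Spec

/-!
Real weights and windows.
-/

set_option autoImplicit false
set_option linter.unusedVariables false

namespace Pool.Agent.MP_bd94e8_al.H89

open Module Function

theorem w : STT → SGood → SUntw → SPath → SOrd → SComb → SPos → SGr → SW := by
  intro hTT hGood hUn hPath hOrd hComb hPos hGr k F _ _ _ _ Pt ι _ _ _ Q Qu ht hF hH hU hT
  classical
  obtain ⟨hNT, hN3⟩ := hTT k F Pt ι Q ∅ ht hF hH
  obtain ⟨hTw, -, -, -, hAr, hQu⟩ := hUn k F Pt ι Q ht hF (hGood k F Pt ι Q ∅ ht hF hNT hN3)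
  obtain ⟨hR0, hAru, hFu, hscal, -⟩ := hQu Qu hU
  have hNP := hPath k F Pt ι Q ht hF hH
  have hInc : Q.Inc = AInc (Arr Q.R0) := by
    funext p q
    simp only [Prob.Inc, AInc, hAr, true_and]
  have hIncu : Qu.Inc = Q.Inc := by
    funext p q
    simp only [Prob.Inc, hAru]
  have htot : ∀ p q, Q.vt p = Q.vt q → p ≠ q → Arr Q.R0 p q ∨ Arr Q.R0 q p := fun p q h hne => by
    have h1 := (hOrd k F Pt ι Q ∅ ht hF).1
    rw [← hAr, ← hAr, h1 p q h (by simp), h1 q p h.symm (by simp)]
    exact lt_or_gt_of_ne fun e => hne (hF.inj p q h (by simp) e)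
  obtain ⟨w, hw, hwt⟩ := hPos Pt ι Q.vt (Arr Q.R0) (Tie Q.vt Q.R0) _
    (hComb F Pt ι Q.vt Q.R0 hT fun i => hF.three i (by simp)) htot (hInc ▸ hNP) (hInc ▸ hNT)
  have hinj : ∀ p q, Q.vt p = Q.vt q → w p = w q → p = q := fun p q h e => by
    by_contra hne
    rcases htot p q h hne with a | a
    · exact (hw _ _ a).ne e
    · exact (hw _ _ a).ne' e
  have hB : ThinBase Qu (Fintype.card Pt ^ 2 + 1) :=
    { three := fun i => hFu.three i (by simp)
      scal := hscal
      diag := fun b hb p q h => hFu.diag b hb p q h (by simp)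
      thin := by rw [hU.1, hR0]; exact hT
      path := by rw [hIncu, hU.1]; exact hNP }
  obtain ⟨hG1, -, hG3⟩ := hGr k F Pt ι Unit Qu _ hB
  have hG : Graded Qu fun p => Multiplicative.ofAdd (w p) := by
    refine hG1 _ _ fun x y h => ?_
    rw [hU.1, hR0] at h
    have := hwt x y h
    rw [← ofAdd_neg, ← ofAdd_neg, ← ofAdd_add, ← ofAdd_add]
    congr 1
    linarith
  refine ⟨hTw, w, hG, fun b₀ hb₀ i j s => ?_, fun T I O _ _ _ J π γ θ hL => ?_⟩
  · by_cases hs : s = 0 ∧ i = j ∧ ∃ p, Q.vt p = i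
    · obtain ⟨rfl, rfl, p₀, hp₀⟩ := hs
      obtain ⟨b, hb, e⟩ := hF.onto p₀ (by simp) (b₀ p₀ p₀)
      refine ⟨b, hb, fun q p hp hq => ⟨fun h => ?_, fun h => ?_⟩⟩
      · obtain rfl := hinj p q (hp.trans hq.symm) (by linarith)
        rw [hF.diag b hb p p₀ (hp.trans hp₀.symm) (by simp), e]
        exact hFu.diag b₀ hb₀ p₀ p (by rw [hU.1]; exact hp₀.trans hp.symm) (by simp)
      · by_contra hne
        have : Q.Ar p q := ⟨fun e => by rw [e] at h; simp at h, b, hb, hne⟩
        have := hw _ _ ((hAr p q).1 this)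
        linarith
    · obtain ⟨c, hc⟩ := (hU.2 b₀).1 hb₀
      set r := b₀ - Matrix.diagonal fun p => c (Q.vt p) with hr
      have hru : r ∈ Qu.R0 := hR0 ▸ hc
      have hm : mask (fun q p => Multiplicative.ofAdd (w p) =
          Multiplicative.ofAdd s * Multiplicative.ofAdd (w q)) r ∈ Q.R0 := by
        rw [← hR0]
        refine ⟨hG r hru.1 _, fun p => ?_⟩
        rw [mask_apply, hru.2 p, ite_self]
      refine ⟨_, hm.1, fun q p hp hq => ⟨fun h => ?_, fun h => ?_⟩⟩
      · have hne : q ≠ p := fun e => hs ⟨by rw [← h, e, sub_self], by rw [← hp, ← hq, e], p, hp⟩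
        rw [mask_pos, hr, Matrix.sub_apply, Matrix.diagonal_apply_ne _ hne, sub_zero]
        rw [← ofAdd_add]
        congr 1
        linarith
      · refine mask_neg _ fun e => ?_
        rw [← ofAdd_add] at e
        have := Multiplicative.ofAdd.injective e
        linarith
  · have hpk : ∀ t t', J.pk t = J.pk t' → Multiplicative.toAdd (γ (J.vt t)).2 + w (π t) =
        Multiplicative.toAdd (γ (J.vt t')).2 + w (π t') := fun t t' h => by
      have h1 := hL.pk t
      rw [h, hL.pk t'] at h1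
      have := congrArg (fun x => Multiplicative.toAdd x.2) h1
      simpa using this.symm
    have hd : ∀ t t', J.vt t = J.vt t' → J.pk t = J.pk t' → t = t' := fun t t' h h' => by
      have h1 := hpk t t' h'
      rw [h] at h1
      have h2 := hL.cov.vt_eq t t' h
      rw [hU.1] at h2
      exact hL.cov.inj t t' h (hinj _ _ h2 (by linarith))
    obtain ⟨hJ, hJA, -⟩ := hG3 T I O J π hL.cov hd
    refine { hJ with
      surj := hL.surj
      dist := hd
      rk := ⟨fun i => (Finset.univ.filter fun i' =>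
        Multiplicative.toAdd (γ i').2 < Multiplicative.toAdd (γ i).2).card,
        fun b hb q p h hne => ?_⟩ }
    have h1 := J.peak b hb q p h
    have h2 : J.Ar p q := ⟨fun e => hne (by rw [e]), b, hb, h⟩
    rw [hJA p q h1.symm, hAru, hAr] at h2
    have h3 := hw _ _ h2
    have h4 := hpk q p h1
    have h5 : Multiplicative.toAdd (γ (J.vt q)).2 < Multiplicative.toAdd (γ (J.vt p)).2 := by
      linarith
    refine Finset.card_lt_card ⟨fun i hi => ?_, fun hs => ?_⟩
    · simp only [Finset.mem_filter, Finset.mem_univ, true_and] at hi ⊢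
      exact hi.trans h5
    · have := hs (show J.vt q ∈ _ by simpa using h5)
      simp at this

end Pool.Agent.MP_bd94e8_al.H89
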